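import Pool.Agent.H626R2.Loc.Defs

set_option autoImplicit false

namespace Pool.Agent.H626R2.Loc

open MvPolynomial

section C1ab

variable {K : Type} [Field K] {n : ℕ}

theorem ren_X_self {r : ℕ} (s : Fin r → Fin n) (hs : Function.Injective s) (b : Fin r) :
    ren (K := K) s (X (s b)) = X b := by
  classical
  unfold ren
  rw [aeval_X, dif_pos ⟨b, rfl⟩]
  congr 1
  exact hs (Exists.choose_spec (⟨b, rfl⟩ : ∃ b', s b' = s b))

theorem ren_X_not {r : ℕ} (s : Fin r → Fin n) (m : Fin n) (hm : ¬ ∃ b, s b = m) :
    ren (K := K) s (X m) = C (X m) := by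
  classical
  unfold ren
  rw [aeval_X, dif_neg hm]

theorem ren_C {r : ℕ} (s : Fin r → Fin n) (a : K) :
    ren (K := K) s (C a) = C (C a) := by
  have := (ren (K := K) s).commutes a
  simpa [MvPolynomial.algebraMap_eq, MvPolynomial.algebraMap_apply] using this

theorem ren_left_inv {r : ℕ} (s : Fin r → Fin n) (hs : Function.Injective s)
    (f : MvPolynomial (Fin n) K) :
    aeval (R := MvPolynomial (Fin n) K) (fun b => (X (s b) : MvPolynomial (Fin n) K)) (ren s f) =
      f := by
  induction f using MvPolynomial.induction_on with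
  | C a =>
    rw [ren_C]
    simp
  | add p q hp hq => rw [map_add, map_add, hp, hq]
  | mul_X p m hp =>
    rw [map_mul, map_mul, hp]
    congr 1
    by_cases hm : ∃ b, s b = m
    · obtain ⟨b, rfl⟩ := hm
      rw [ren_X_self s hs, aeval_X]
    · rw [ren_X_not s m hm]
      simp

/-- C1a. -/
theorem ren_injective {r : ℕ} (s : Fin r → Fin n) (hs : Function.Injective s) :
    Function.Injective (ren (K := K) s) :=
  Function.LeftInverse.injective (ren_left_inv s hs)

/-- C1b. -/
theorem pderiv_ren {r : ℕ} (s : Fin r → Fin n) (hs : Function.Injective s) (b : Fin r)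
    (f : MvPolynomial (Fin n) K) : pderiv b (ren s f) = ren s (pderiv (s b) f) := by
  classical
  induction f using MvPolynomial.induction_on with
  | C a =>
    rw [ren_C, pderiv_C, pderiv_C, map_zero]
  | add p q hp hq => rw [map_add, map_add, map_add, map_add, hp, hq]
  | mul_X p m hp =>
    rw [map_mul, pderiv_mul, pderiv_mul, map_add, map_mul, map_mul, hp]
    congr 2
    by_cases hm : ∃ b, s b = m
    · obtain ⟨b', rfl⟩ := hm
      rw [ren_X_self s hs, pderiv_X, pderiv_X]
      by_cases h : b' = b
      · subst h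
        simp
      · rw [Pi.single_eq_of_ne h, Pi.single_eq_of_ne (fun h' => h (hs h')), map_zero]
    · rw [ren_X_not s m hm, pderiv_C, pderiv_X, Pi.single_eq_of_ne (fun h => hm ⟨b, h.symm⟩),
        map_zero]

end C1ab

end Pool.Agent.H626R2.Loc
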