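import Pool.Agent.H626R2.Loc.Defs

set_option autoImplicit false

namespace Pool.Agent.H626R2.Loc

open MvPolynomial

section C7

variable {K : Type} [Field K] {n : ℕ}

theorem C7_degreeOf_aeval {σ τ : Type} (g : σ → MvPolynomial τ K) (i : τ)
    (d : ℕ) (hg : ∀ m, (g m).degreeOf i ≤ d) (f : MvPolynomial σ K) :
    (aeval g f).degreeOf i ≤ f.totalDegree * d := by
  classical
  rw [aeval_def, eval₂_eq]
  refine (degreeOf_sum_le _ _ _).trans (Finset.sup_le fun m hm => ?_)
  refine (degreeOf_mul_le _ _ _).trans ?_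
  rw [MvPolynomial.algebraMap_eq, degreeOf_C, zero_add]
  refine (degreeOf_prod_le _ _ _).trans ?_
  refine (Finset.sum_le_sum (fun j _ => (degreeOf_pow_le i (g j) (m j)).trans
    (Nat.mul_le_mul_left _ (hg j)))).trans ?_
  rw [← Finset.sum_mul]
  exact Nat.mul_le_mul_right _ (le_totalDegree hm)

theorem C7_gen_inl (T : ℕ) (l : Fin T) (m : Fin n) : (gen K n T m).degreeOf (Sum.inl l) ≤ 1 := by
  classical
  unfold gen
  refine (degreeOf_sum_le _ _ _).trans (Finset.sup_le fun l' _ => ?_)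
  refine (degreeOf_mul_le _ _ _).trans ?_
  have h1 : (X (Sum.inl l') : MvPolynomial (Fin T ⊕ Fin T) K).degreeOf (Sum.inl l) ≤ 1 := by
    rw [degreeOf_X]
    split_ifs <;> simp
  have h2 : (∏ j ∈ Finset.univ.erase m, ((X (Sum.inr l') : MvPolynomial (Fin T ⊕ Fin T) K) -
      C ((j : ℕ) : K))).degreeOf (Sum.inl l) ≤ 0 := by
    refine (degreeOf_prod_le _ _ _).trans ?_
    refine (Finset.sum_le_sum (g := fun _ => 0) fun j _ => ?_).trans (by simp)
    refine (degreeOf_sub_le _ _ _).trans ?_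
    rw [degreeOf_X, degreeOf_C]
    simp
  omega

theorem C7_gen_inr (T : ℕ) (l : Fin T) (m : Fin n) : (gen K n T m).degreeOf (Sum.inr l) ≤ n := by
  classical
  unfold gen
  refine (degreeOf_sum_le _ _ _).trans (Finset.sup_le fun l' _ => ?_)
  refine (degreeOf_mul_le _ _ _).trans ?_
  have h1 : (X (Sum.inl l') : MvPolynomial (Fin T ⊕ Fin T) K).degreeOf (Sum.inr l) = 0 := by
    rw [degreeOf_X]
    simp
  have h2 : (∏ j ∈ Finset.univ.erase m, ((X (Sum.inr l') : MvPolynomial (Fin T ⊕ Fin T) K) -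
      C ((j : ℕ) : K))).degreeOf (Sum.inr l) ≤ n := by
    refine (degreeOf_prod_le _ _ _).trans ?_
    refine (Finset.sum_le_sum (g := fun _ => 1) fun j _ => ?_).trans ?_
    · refine (degreeOf_sub_le _ _ _).trans ?_
      rw [degreeOf_X, degreeOf_C]
      split_ifs <;> simp
    · rw [Finset.sum_const, smul_eq_mul, mul_one]
      exact (Finset.card_le_univ _).trans (by simp)
  omega

/-- C7. explicit points -/
theorem exists_grid [CharZero K] {T D : ℕ} {f : MvPolynomial (Fin n) K} (h : evT K n T f ≠ 0)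
    (hD : f.totalDegree ≤ D) :
    ∃ y z : Fin T → ℕ, (∀ l, y l ≤ D) ∧ (∀ l, z l ≤ n * D) ∧
      eval (fun m : Fin n => ∑ l, (y l : K) * ∏ j ∈ Finset.univ.erase m, ((z l : K) - ((j : ℕ) : K))) f
        ≠ 0 := by
  classical
  let B : Fin T ⊕ Fin T → ℕ := fun i => Sum.elim (fun _ => D) (fun _ => n * D) i
  let S : Fin T ⊕ Fin T → Finset K := fun i => (Finset.range (B i + 1)).image (Nat.cast : ℕ → K)
  have hcard : ∀ i, (S i).card = B i + 1 := fun i => by
    simp only [S]
    rw [Finset.card_image_of_injective _ Nat.cast_injective, Finset.card_range]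
  have hex : ∃ x : Fin T ⊕ Fin T → K, (∀ i, x i ∈ S i) ∧ eval x (evT K n T f) ≠ 0 := by
    by_contra hcon
    push Not at hcon
    apply h
    refine MvPolynomial.eq_zero_of_eval_zero_at_prod_finset _ S ?_ hcon
    intro i
    rw [hcard]
    refine Nat.lt_succ_of_le ?_
    rcases i with l | l
    · refine (C7_degreeOf_aeval _ _ 1 (fun m => C7_gen_inl T l m) f).trans ?_
      simp only [B, Sum.elim_inl]
      omega
    · refine (C7_degreeOf_aeval _ _ n (fun m => C7_gen_inr T l m) f).trans ?_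
      simp only [B, Sum.elim_inr]
      nlinarith
  obtain ⟨x, hx, hne⟩ := hex
  have hx' : ∀ i, ∃ a : ℕ, a ≤ B i ∧ (a : K) = x i := by
    intro i
    obtain ⟨a, ha, hax⟩ := Finset.mem_image.1 (hx i)
    exact ⟨a, Nat.lt_succ_iff.1 (Finset.mem_range.1 ha), hax⟩
  choose a ha hax using hx'
  refine ⟨fun l => a (Sum.inl l), fun l => a (Sum.inr l), fun l => ha _, fun l => ha _, ?_⟩
  have heq : eval x (evT K n T f) =
      eval (fun m : Fin n => ∑ l, ((a (Sum.inl l) : ℕ) : K) *
        ∏ j ∈ Finset.univ.erase m, (((a (Sum.inr l) : ℕ) : K) - ((j : ℕ) : K))) f := by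
    unfold evT
    have h1 : eval x (aeval (gen K n T) f) = eval (fun m => eval x (gen K n T m)) f := by
      rw [← MvPolynomial.coe_aeval_eq_eval, ← MvPolynomial.coe_aeval_eq_eval]
      change aeval x (aeval (gen K n T) f) = _
      rw [← AlgHom.comp_apply, comp_aeval]
      rfl
    rw [h1]
    congr 2
    funext m
    unfold gen
    rw [map_sum]
    refine Finset.sum_congr rfl fun l _ => ?_
    rw [map_mul, map_prod, eval_X, hax]
    congr 1
    refine Finset.prod_congr rfl fun j _ => ?_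
    rw [map_sub, eval_X, eval_C, hax]
  rw [← heq]
  exact hne

end C7

end Pool.Agent.H626R2.Loc
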