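import Pool.Agent.H626R2.Loc.Defs

set_option autoImplicit false

namespace Pool.Agent.H626R2.Loc

open MvPolynomial

/-- an element integral over a field contained in a valuation ring lies in the ring -/
theorem V10_mem {K Ω : Type} [Field K] [Field Ω] [Algebra K Ω] (O : ValuationSubring Ω)
    (L : IntermediateField K Ω) (hL : ∀ y : L, (y : Ω) ∈ O) (x : Ω) (hx : IsIntegral L x) :
    x ∈ O := by
  obtain ⟨p, hp, hpx⟩ := hx
  let f : L →+* O := (algebraMap L Ω).codRestrict O.toSubring (fun y => hL y)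
  have h1 : IsIntegral O x := by
    refine ⟨p.map f, hp.map f, ?_⟩
    rw [Polynomial.eval₂_map]
    exact hpx
  obtain ⟨y, hy⟩ := IsIntegrallyClosed.isIntegral_iff.1 h1
  rw [← hy]
  exact y.2

/-- V10. -/
theorem alg_units {K Ω : Type} [Field K] [Field Ω] [Algebra K Ω] (O : ValuationSubring Ω)
    (S : Set Ω) (hS : ∀ y ∈ Algebra.adjoin K S, y ≠ 0 → O.valuation y = 1) (x : Ω) (hx0 : x ≠ 0)
    (hx : IsAlgebraic (IntermediateField.adjoin K S) x) : O.valuation x = 1 := by
  have hL : ∀ y : IntermediateField.adjoin K S, (y : Ω) ∈ O := by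
    rintro ⟨y, hy⟩
    obtain ⟨a, ha, b, hb, rfl⟩ := (IntermediateField.mem_adjoin_iff_div).1 hy
    change a / b ∈ O
    rw [← ValuationSubring.valuation_le_one_iff]
    by_cases ha0 : a = 0
    · rw [ha0, zero_div, map_zero]
      exact zero_le_one
    by_cases hb0 : b = 0
    · rw [hb0, div_zero, map_zero]
      exact zero_le_one
    rw [map_div₀, hS a ha ha0, hS b hb hb0, div_one]
  have h1 : x ∈ O := V10_mem O _ hL x hx.isIntegral
  have h2 : x⁻¹ ∈ O := V10_mem O _ hL x⁻¹ hx.inv.isIntegral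
  rw [← ValuationSubring.valuation_le_one_iff] at h1 h2
  refine le_antisymm h1 ?_
  rw [map_inv₀] at h2
  have hne : O.valuation x ≠ 0 := (Valuation.ne_zero_iff _).2 hx0
  exact (inv_le_one₀ (zero_lt_iff.2 hne)).1 h2

end Pool.Agent.H626R2.Loc
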