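import Pool.Agent.H626R2.Loc.Defs

set_option autoImplicit false

namespace Pool.Agent.H626R2.Loc

open MvPolynomial

/-- the value of a nonzero element as an element of an additive group -/
noncomputable def V3val {E : Type} [Field E] (V : ValuationSubring E) (x : E) (hx : x ≠ 0) :
    Additive (V.ValueGroup)ˣ :=
  Additive.ofMul (Units.mk0 (V.valuation x) ((Valuation.ne_zero_iff _).2 hx))

theorem V3_iff {E : Type} [Field E] (V : ValuationSubring E) {ι : Type} [Fintype ι] (x : ι → E)
    (hx : ∀ i, x i ≠ 0) (n : ι → ℤ) :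
    V.valuation (∏ i, x i ^ n i) = 1 ↔ ∑ i, n i • V3val V (x i) (hx i) = 0 := by
  have h1 : Additive.toMul (∑ i, n i • V3val V (x i) (hx i)) =
      ∏ i, (Units.mk0 (V.valuation (x i)) ((Valuation.ne_zero_iff _).2 (hx i))) ^ n i := by
    rw [toMul_sum]
    refine Finset.prod_congr rfl fun i _ => ?_
    rw [toMul_zsmul]
    rfl
  have h2 : ((∏ i, (Units.mk0 (V.valuation (x i)) ((Valuation.ne_zero_iff _).2 (hx i))) ^ n i :
      (V.ValueGroup)ˣ) : V.ValueGroup) = V.valuation (∏ i, x i ^ n i) := by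
    rw [map_prod, Units.coe_prod]
    refine Finset.prod_congr rfl fun i _ => ?_
    rw [map_zpow₀, Units.val_zpow_eq_zpow_val, Units.val_mk0]
  rw [← h2, ← h1, Units.val_eq_one]
  exact toMul_eq_one

theorem V3_indep {E : Type} [Field E] (V : ValuationSubring E) {r : ℕ} (x : Fin r → E)
    (hx : ∀ i, x i ≠ 0) :
    IndepVal V x ↔ LinearIndependent ℤ (fun i => V3val V (x i) (hx i)) := by
  rw [Fintype.linearIndependent_iff]
  constructor
  · rintro ⟨_, h⟩ n hn
    by_contra hne
    push Not at hne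
    obtain ⟨i, hi⟩ := hne
    exact h n (fun h0 => hi (congrFun h0 i)) ((V3_iff V x hx n).2 hn)
  · intro h
    refine ⟨hx, fun n hn h1 => hn ?_⟩
    funext i
    exact h n ((V3_iff V x hx n).1 h1) i

/-- V3. -/
theorem indepVal_select {E : Type} [Field E] (V : ValuationSubring E) {r : ℕ} {ι : Type}
    [Fintype ι] (g : ι → E) (hg : ∀ j, g j ≠ 0) (e : Fin r → ι → ℕ)
    (h : IndepVal V (fun a => ∏ j, g j ^ e a j)) :
    ∃ J : Fin r → ι, IndepVal V (fun l => g (J l)) := by
  classical
  have hne : ∀ a, (∏ j, g j ^ e a j) ≠ 0 := h.1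
  have h' := (V3_indep V _ hne).1 h
  set w : ι → Additive (V.ValueGroup)ˣ := fun j => V3val V (g j) (hg j) with hw
  have hu : ∀ a, V3val V (∏ j, g j ^ e a j) (hne a) = ∑ j, (e a j : ℤ) • w j := by
    intro a
    apply Additive.toMul.injective
    apply Units.ext
    have h2 : ((Additive.toMul (∑ j, (e a j : ℤ) • w j) : (V.ValueGroup)ˣ) : V.ValueGroup) =
        ∏ j, (V.valuation (g j)) ^ (e a j : ℤ) := by
      rw [toMul_sum, Units.coe_prod]
      refine Finset.prod_congr rfl fun j _ => ?_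
      rw [toMul_zsmul, Units.val_zpow_eq_zpow_val]
      rfl
    rw [h2]
    change V.valuation (∏ j, g j ^ e a j) = _
    rw [map_prod]
    refine Finset.prod_congr rfl fun j _ => ?_
    rw [map_pow, zpow_natCast]
  obtain ⟨I, hI, hmax⟩ := exists_maximal_linearIndepOn ℤ w
  -- a common multiplier
  have hch : ∀ j, ∃ a : ℤ, a ≠ 0 ∧ a • w j ∈ Submodule.span ℤ (w '' I) := by
    intro j
    by_cases hj : j ∈ I
    · exact ⟨1, one_ne_zero, by
        rw [one_smul]; exact Submodule.subset_span ⟨j, hj, rfl⟩⟩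
    · exact hmax j hj
  choose a ha0 haw using hch
  set N : ℤ := ∏ j, a j with hN
  have hN0 : N ≠ 0 := Finset.prod_ne_zero_iff.2 fun j _ => ha0 j
  have hNw : ∀ j, N • w j ∈ Submodule.span ℤ (w '' I) := by
    intro j
    rw [hN, ← Finset.mul_prod_erase _ _ (Finset.mem_univ j), mul_comm, mul_smul]
    exact Submodule.smul_mem _ _ (haw j)
  have hNu : ∀ b, N • (V3val V (∏ j, g j ^ e b j) (hne b)) ∈ Submodule.span ℤ (w '' I) := by
    intro b
    rw [hu b, Finset.smul_sum]
    refine Submodule.sum_mem _ fun j _ => ?_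
    rw [smul_comm]
    exact Submodule.smul_mem _ _ (hNw j)
  have hlin : LinearIndependent ℤ fun b => N • (V3val V (∏ j, g j ^ e b j) (hne b)) := by
    rw [Fintype.linearIndependent_iff] at h' ⊢
    intro c hc b
    have h3 := h' (fun b => c b * N) (by
      rw [← hc]
      exact Finset.sum_congr rfl fun b _ => by rw [mul_smul]) b
    exact (mul_eq_zero.1 h3).resolve_right hN0
  have hfin : Fintype (w '' I : Set (Additive (V.ValueGroup)ˣ)) := Fintype.ofFinite _
  have hcard := linearIndependent_le_span' _ hlin (w '' I) (by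
    rintro _ ⟨b, rfl⟩
    exact hNu b)
  rw [Cardinal.mk_fintype, Fintype.card_fin] at hcard
  have hcard1 : r ≤ Fintype.card (w '' I : Set (Additive (V.ValueGroup)ˣ)) := by
    exact_mod_cast hcard
  have hcard2 : Fintype.card (w '' I : Set (Additive (V.ValueGroup)ˣ)) ≤ Fintype.card I :=
    Fintype.card_le_of_surjective (fun i : I => (⟨w i, i, i.2, rfl⟩ : (w '' I : Set _))) (by
      rintro ⟨_, i, hi, rfl⟩
      exact ⟨⟨i, hi⟩, rfl⟩)
  obtain ⟨emb⟩ := Function.Embedding.nonempty_of_card_le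
    (α := Fin r) (β := I) (by rw [Fintype.card_fin]; exact hcard1.trans hcard2)
  refine ⟨fun l => (emb l : ι), ?_⟩
  rw [V3_indep V _ (fun l => hg _)]
  exact hI.comp emb emb.injective

end Pool.Agent.H626R2.Loc
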